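import Mathlib
import Pool.Agent.Helper133.Brouwer

/-!
Schauder's fixed point theorem for compact convex sets of a normed space, from Brouwer's theorem.
-/

set_option autoImplicit false

open Set Filter Topology

namespace Pool.Agent.W143.DQ

/-- retraction onto the simplex -/
noncomputable def rho {N : ℕ} (l : Fin N → ℝ) (i : Fin N) : ℝ :=
  (max (l i) 0 + max (1 - ∑ j, max (l j) 0) 0 / N) / max (∑ j, max (l j) 0) 1

theorem rho_nonneg {N : ℕ} (l : Fin N → ℝ) (i : Fin N) : 0 ≤ rho l i := by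
  unfold rho
  positivity

theorem rho_sum {N : ℕ} (hN : 0 < N) (l : Fin N → ℝ) : ∑ i, rho l i = 1 := by
  unfold rho
  have hN' : (N : ℝ) ≠ 0 := by positivity
  rw [← Finset.sum_div, Finset.sum_add_distrib]
  simp only [Finset.sum_const, Finset.card_univ, Fintype.card_fin, nsmul_eq_mul]
  rw [mul_div_cancel₀ _ hN']
  set s := ∑ j, max (l j) 0 with hs
  rcases le_total s 1 with h | h
  · rw [max_eq_right h, max_eq_left (by linarith)]
    ring
  · rw [max_eq_left h, max_eq_right (by linarith), add_zero, div_self (by linarith)]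

theorem rho_self {N : ℕ} (l : Fin N → ℝ) (h0 : ∀ i, 0 ≤ l i) (h1 : ∑ i, l i = 1) : rho l = l := by
  funext i
  unfold rho
  have h : ∀ j, max (l j) 0 = l j := fun j => max_eq_left (h0 j)
  simp only [h, h1]
  simp

theorem rho_continuous {N : ℕ} (i : Fin N) : Continuous (fun l : Fin N → ℝ => rho l i) := by
  unfold rho
  refine Continuous.div ?_ ?_ ?_
  · fun_prop
  · fun_prop
  · intro l
    have : (0 : ℝ) < max (∑ j, max (l j) 0) 1 := lt_of_lt_of_le one_pos (le_max_right _ _)
    exact this.ne'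

theorem approx {E : Type*} [NormedAddCommGroup E] [NormedSpace ℝ E] {K : Set E}
    (hK : IsCompact K) (hc : Convex ℝ K) (hne : K.Nonempty) (f : E → E) (hf : ContinuousOn f K)
    (hm : ∀ x ∈ K, f x ∈ K) (η : ℝ) (hη : 0 < η) : ∃ x ∈ K, ‖f x - x‖ ≤ η := by
  obtain ⟨t, htK, htf, hcov⟩ := hK.finite_cover_balls hη
  obtain ⟨N, a, ha, hN⟩ : ∃ (N : ℕ) (a : Fin N → E), range a = t ∧ 0 < N := by
    have := htf.fintype
    have hne' : t.Nonempty := by
      obtain ⟨x, hx⟩ := hne
      have := hcov hx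
      simp only [mem_iUnion] at this
      obtain ⟨y, hy, _⟩ := this
      exact ⟨y, hy⟩
    have : Nonempty t := hne'.to_subtype
    refine ⟨Fintype.card t, fun i => ((Fintype.equivFin t).symm i).1, ?_, Fintype.card_pos⟩
    ext x
    constructor
    · rintro ⟨i, rfl⟩
      exact ((Fintype.equivFin t).symm i).2
    · intro hx
      exact ⟨Fintype.equivFin t ⟨x, hx⟩, by simp⟩
  have haK : ∀ i, a i ∈ K := fun i => htK (by rw [← ha]; exact ⟨i, rfl⟩)
  have hcov' : ∀ x ∈ K, ∃ i, ‖x - a i‖ < η := by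
    intro x hx
    have := hcov hx
    simp only [mem_iUnion] at this
    obtain ⟨y, hy, hxy⟩ := this
    rw [← ha] at hy
    obtain ⟨i, rfl⟩ := hy
    exact ⟨i, by simpa [dist_eq_norm] using hxy⟩
  -- weights
  let w : Fin N → E → ℝ := fun i x => max 0 (η - ‖x - a i‖)
  have hw0 : ∀ i x, 0 ≤ w i x := fun i x => le_max_left _ _
  have hwpos : ∀ x ∈ K, 0 < ∑ i, w i x := by
    intro x hx
    obtain ⟨i, hi⟩ := hcov' x hx
    refine Finset.sum_pos' (fun i _ => hw0 i x) ⟨i, Finset.mem_univ _, ?_⟩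
    exact lt_max_of_lt_right (by linarith)
  have hwc : ∀ i, Continuous (w i) := by
    intro i
    simp only [w]
    fun_prop
  -- barycentric map
  let P : (Fin N → ℝ) → E := fun l => ∑ i, rho l i • a i
  have hPK : ∀ l, P l ∈ K := by
    intro l
    exact hc.sum_mem (fun i _ => rho_nonneg l i) (rho_sum hN l) (fun i _ => haK i)
  have hPc : Continuous P := by
    refine continuous_finsetSum _ fun i _ => ?_
    exact (rho_continuous i).smul continuous_const
  have hfPc : Continuous (fun l => f (P l)) := by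
    refine hf.comp_continuous hPc hPK
  let Φ : (Fin N → ℝ) → (Fin N → ℝ) := fun l i => w i (f (P l)) / ∑ j, w j (f (P l))
  have hΦc : Continuous Φ := by
    refine continuous_pi fun i => ?_
    refine Continuous.div ((hwc i).comp hfPc) ?_ ?_
    · exact continuous_finsetSum _ fun j _ => (hwc j).comp hfPc
    · intro l
      exact (hwpos _ (hm _ (hPK l))).ne'
  have hΦ0 : ∀ l i, 0 ≤ Φ l i := fun l i =>
    div_nonneg (hw0 _ _) (Finset.sum_nonneg fun j _ => hw0 _ _)
  have hΦ1 : ∀ l, ∑ i, Φ l i = 1 := by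
    intro l
    simp only [Φ]
    rw [← Finset.sum_div, div_self (hwpos _ (hm _ (hPK l))).ne']
  have hΦb : ∀ l, ‖Φ l‖ ≤ 1 := by
    intro l
    rw [pi_norm_le_iff_of_nonneg one_pos.le]
    intro i
    rw [Real.norm_eq_abs, abs_of_nonneg (hΦ0 l i), ← hΦ1 l]
    exact Finset.single_le_sum (fun j _ => hΦ0 l j) (Finset.mem_univ i)
  obtain ⟨l, hl⟩ := Pool.Agent.Helper133.Brouwer.brouwer Φ hΦc 1 hΦb
  have hl0 : ∀ i, 0 ≤ l i := fun i => by rw [← hl]; exact hΦ0 l i
  have hl1 : ∑ i, l i = 1 := by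
    have := hΦ1 l
    rwa [hl] at this
  have hrho : rho l = l := rho_self l hl0 hl1
  refine ⟨P l, hPK l, ?_⟩
  have hPl : P l = ∑ i, l i • a i := by
    simp only [P, hrho]
  have key : f (P l) - P l = ∑ i, l i • (f (P l) - a i) := by
    simp only [smul_sub, Finset.sum_sub_distrib]
    rw [← Finset.sum_smul, hl1, one_smul, ← hPl]
  rw [key]
  calc ‖∑ i, l i • (f (P l) - a i)‖ ≤ ∑ i, ‖l i • (f (P l) - a i)‖ := norm_sum_le _ _
    _ ≤ ∑ i, l i * η := by
        refine Finset.sum_le_sum fun i _ => ?_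
        rw [norm_smul, Real.norm_eq_abs, abs_of_nonneg (hl0 i)]
        rcases lt_or_ge ‖f (P l) - a i‖ η with h | h
        · exact mul_le_mul_of_nonneg_left h.le (hl0 i)
        · have : l i = 0 := by
            rw [← hl]
            simp only [Φ, w]
            rw [max_eq_left (by linarith), zero_div]
          rw [this]
          simp
    _ = η := by rw [← Finset.sum_mul, hl1, one_mul]

/-- Schauder's fixed point theorem. -/
theorem schauder {E : Type*} [NormedAddCommGroup E] [NormedSpace ℝ E] {K : Set E}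
    (hK : IsCompact K) (hc : Convex ℝ K) (hne : K.Nonempty) (f : E → E) (hf : ContinuousOn f K)
    (hm : ∀ x ∈ K, f x ∈ K) : ∃ x ∈ K, f x = x := by
  obtain ⟨x, hx, hmin⟩ := hK.exists_isMinOn hne (f := fun x => ‖f x - x‖)
    ((hf.sub continuousOn_id).norm)
  refine ⟨x, hx, ?_⟩
  have h0 : ‖f x - x‖ ≤ 0 := by
    refine le_of_forall_pos_le_add fun η hη => ?_
    obtain ⟨y, hy, h⟩ := approx hK hc hne f hf hm η hη
    have := hmin hy
    simp only [mem_setOf_eq] at this
    linarith
  have := norm_le_zero_iff.1 h0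
  exact sub_eq_zero.1 this

end Pool.Agent.W143.DQ
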