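import Pool.Agent.W133.DQ.StB
import Pool.Agent.W143.DQ.Schauder

/-!
Project DQ: Schauder's theorem on `KK`.
-/

set_option autoImplicit false

open scoped ContDiff
open Set Filter Topology

namespace Pool.Agent.W143.DQ

open Pool.Agent.W133.DQ

theorem differentiable_it {w : P2 → ℝ} (hw : ContDiff ℝ ∞ w) (r : ℕ) :
    Differentiable ℝ (iteratedFDeriv ℝ r w) :=
  hw.differentiable_iteratedFDeriv (by exact_mod_cast ENat.natCast_lt_top r)

/-- Poincare inequality -/
theorem poin {u : P2 → ℝ} (hu : ContDiff ℝ ∞ u) (hs : SuppBox 1 1 u) (j : ℕ) (M : ℝ)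
    (h : NB (j + 1) u M) : NB j u (3 * M) := by
  intro p
  have hM : 0 ≤ M := (norm_nonneg _).trans (h 0)
  have hout : ∀ q : P2, 1 < ‖q‖ → iteratedFDeriv ℝ j u q = 0 := by
    intro q hq
    have hev : u =ᶠ[𝓝 q] fun _ => 0 := by
      have : {x : P2 | 1 < ‖x‖} ∈ 𝓝 q := (isOpen_lt continuous_const continuous_norm).mem_nhds hq
      filter_upwards [this] with x hx
      apply hs
      have hx' : 1 < ‖x‖ := hx
      rw [Prod.norm_def, lt_max_iff] at hx'
      rcases hx' with h1 | h1
      · exact Or.inl h1.le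
      · exact Or.inr h1.le
    have := (hev.iteratedFDeriv ℝ j).eq_of_nhds
    rw [this]
    simp
  by_cases hp : 1 < ‖p‖
  · rw [hout p hp, norm_zero]
    positivity
  · have hp' : ‖p‖ ≤ 1 := not_lt.1 hp
    have hq : (1 : ℝ) < ‖((2, 0) : P2)‖ := by
      rw [Prod.norm_def]
      norm_num
    have hmv := Convex.norm_image_sub_le_of_norm_fderiv_le (𝕜 := ℝ) (f := iteratedFDeriv ℝ j u)
      (s := univ) (C := M) (fun x _ => (differentiable_it hu j) x)
      (fun x _ => by rw [norm_fderiv_iteratedFDeriv]; exact h x) convex_univ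
      (mem_univ ((2, 0) : P2)) (mem_univ p)
    rw [hout _ hq, sub_zero] at hmv
    have h3 : ‖p - ((2, 0) : P2)‖ ≤ 3 := by
      have h2 : ‖((2, 0) : P2)‖ = 2 := by
        rw [Prod.norm_def]
        norm_num
      have := norm_sub_le p ((2, 0) : P2)
      linarith
    calc ‖iteratedFDeriv ℝ j u p‖ ≤ M * ‖p - ((2, 0) : P2)‖ := hmv
      _ ≤ M * 3 := mul_le_mul_of_nonneg_left h3 hM
      _ = 3 * M := by ring

/-- bounds for all derivatives on `KK` -/
noncomputable def bd (ε : ℕ → ℝ) (j : ℕ) : ℝ :=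
  if 4 ≤ j then ε j else 3 ^ (4 - j) * ε 4

theorem bd_nonneg {ε : ℕ → ℝ} (h : ∀ r, 0 ≤ ε r) (j : ℕ) : 0 ≤ bd ε j := by
  unfold bd
  split_ifs
  · exact h j
  · have := h 4
    positivity

theorem nb_bd {ε : ℕ → ℝ} {u : P2 → ℝ} (hu : u ∈ KK ε) (j : ℕ) : NB j u (bd ε j) := by
  obtain ⟨h1, h2, h3⟩ := hu
  unfold bd
  split_ifs with hj
  · exact h3 j hj
  · have h4 := h3 4 le_rfl
    have h5 := poin h1 h2 3 _ h4
    have h6 := poin h1 h2 2 _ h5
    have h7 := poin h1 h2 1 _ h6
    have h8 := poin h1 h2 0 _ h7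
    have hj' : j = 0 ∨ j = 1 ∨ j = 2 ∨ j = 3 := by omega
    rcases hj' with rfl | rfl | rfl | rfl
    · intro p
      have := h8 p
      norm_num at this ⊢
      linarith
    · intro p
      have := h7 p
      norm_num at this ⊢
      linarith
    · intro p
      have := h6 p
      norm_num at this ⊢
      linarith
    · intro p
      have := h5 p
      norm_num at this ⊢
      linarith

/-- interpolation -/
theorem interp {w : P2 → ℝ} (hw : ContDiff ℝ ∞ w) (r : ℕ) (η M h : ℝ) (hh : 0 < h)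
    (h0 : NB r w η) (h2 : NB (r + 2) w M) : NB (r + 1) w (2 * η / h + M * h) := by
  intro p
  have hM : 0 ≤ M := (norm_nonneg _).trans (h2 0)
  have hη : 0 ≤ η := (norm_nonneg _).trans (h0 0)
  rw [← norm_fderiv_iteratedFDeriv]
  have hlip : ∀ x y : P2, ‖fderiv ℝ (iteratedFDeriv ℝ r w) x - fderiv ℝ (iteratedFDeriv ℝ r w) y‖
      ≤ M * ‖x - y‖ := by
    intro x y
    have hmv := Convex.norm_image_sub_le_of_norm_fderiv_le (𝕜 := ℝ)
      (f := iteratedFDeriv ℝ (r + 1) w)
      (s := univ) (C := M) (fun x _ => (differentiable_it hw (r + 1)) x)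
      (fun x _ => by rw [norm_fderiv_iteratedFDeriv]; exact h2 x) convex_univ
      (mem_univ y) (mem_univ x)
    have e : ∀ z, iteratedFDeriv ℝ (r + 1) w z =
        (continuousMultilinearCurryLeftEquiv ℝ (fun _ : Fin (r + 1) => P2) ℝ).symm
          (fderiv ℝ (iteratedFDeriv ℝ r w) z) := by
      intro z
      rw [iteratedFDeriv_succ_eq_comp_left]
      rfl
    rw [e, e, ← dist_eq_norm, LinearIsometryEquiv.dist_map, dist_eq_norm] at hmv
    exact hmv
  -- Taylor
  have htay : ∀ v : P2, ‖v‖ ≤ h → ‖fderiv ℝ (iteratedFDeriv ℝ r w) p v‖ ≤ 2 * η + M * h * ‖v‖ := by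
    intro v hv
    have hmv := Convex.norm_image_sub_le_of_norm_fderiv_le (𝕜 := ℝ)
      (f := fun x => iteratedFDeriv ℝ r w x - fderiv ℝ (iteratedFDeriv ℝ r w) p x)
      (s := Metric.closedBall p h) (C := M * h)
      (fun x _ => ((differentiable_it hw r) x).sub
        (ContinuousLinearMap.differentiableAt _))
      (fun x hx => by
        rw [fderiv_fun_sub ((differentiable_it hw r) x) (ContinuousLinearMap.differentiableAt _),
          ContinuousLinearMap.fderiv]
        refine (hlip x p).trans (mul_le_mul_of_nonneg_left ?_ hM)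
        simpa [dist_eq_norm] using hx) (convex_closedBall p h)
      (Metric.mem_closedBall_self hh.le) (y := p + v) (by simpa [dist_eq_norm] using hv)
    have e1 : iteratedFDeriv ℝ r w (p + v) - fderiv ℝ (iteratedFDeriv ℝ r w) p (p + v) -
        (iteratedFDeriv ℝ r w p - fderiv ℝ (iteratedFDeriv ℝ r w) p p) =
        (iteratedFDeriv ℝ r w (p + v) - iteratedFDeriv ℝ r w p) -
          fderiv ℝ (iteratedFDeriv ℝ r w) p v := by
      rw [map_add]
      abel
    simp only [e1, add_sub_cancel_left] at hmv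
    have h3 := norm_sub_norm_le (fderiv ℝ (iteratedFDeriv ℝ r w) p v)
      (iteratedFDeriv ℝ r w (p + v) - iteratedFDeriv ℝ r w p)
    rw [norm_sub_rev (fderiv ℝ (iteratedFDeriv ℝ r w) p v)] at h3
    have h4 := norm_sub_le (iteratedFDeriv ℝ r w (p + v)) (iteratedFDeriv ℝ r w p)
    have h5 := h0 (p + v)
    have h6 := h0 p
    linarith
  refine ContinuousLinearMap.opNorm_le_of_unit_norm (by positivity) fun v hv => ?_
  have h3 := htay (h • v) (by rw [norm_smul, hv, Real.norm_eq_abs, abs_of_pos hh, mul_one])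
  rw [map_smul, norm_smul, norm_smul, hv, Real.norm_eq_abs, abs_of_pos hh, mul_one] at h3
  have h4 : ‖fderiv ℝ (iteratedFDeriv ℝ r w) p v‖ ≤ (2 * η + M * h * h) / h := by
    rw [le_div_iff₀ hh]
    linarith
  refine h4.trans (le_of_eq ?_)
  field_simp

/-- functions with bounded derivatives which are small have small derivatives -/
theorem small (b : ℕ → ℝ) (hb : ∀ j, 0 ≤ b j) (r : ℕ) : ∀ e : ℝ, 0 < e → ∃ δ : ℝ, 0 < δ ∧
    ∀ w : P2 → ℝ, ContDiff ℝ ∞ w → (∀ j, NB j w (b j)) → (∀ p, |w p| ≤ δ) → NB r w e := by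
  induction r with
  | zero =>
    intro e he
    refine ⟨e, he, fun w _ _ h p => ?_⟩
    rw [norm_iteratedFDeriv_zero, Real.norm_eq_abs]
    exact h p
  | succ r ih =>
    intro e he
    have hb2 := hb (r + 2)
    set h : ℝ := e / (2 * (b (r + 2) + 1)) with hh
    have hpos : 0 < h := by positivity
    obtain ⟨δ, hδ, hd⟩ := ih (e * h / 4) (by positivity)
    refine ⟨δ, hδ, fun w hw hbw hsm p => ?_⟩
    have h1 := interp hw r (e * h / 4) (b (r + 2)) h hpos (hd w hw hbw hsm) (hbw (r + 2)) p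
    refine h1.trans ?_
    have e1 : 2 * (e * h / 4) / h = e / 2 := by
      field_simp
      ring
    have e2 : b (r + 2) * h ≤ e / 2 := by
      have : (b (r + 2) + 1) * h = e / 2 := by
        rw [hh]
        field_simp
      nlinarith
    linarith

theorem diff_nb {ε : ℕ → ℝ} {u v : P2 → ℝ} (hu : u ∈ KK ε) (hv : v ∈ KK ε) (j : ℕ) :
    NB j (u - v) (2 * bd ε j) := by
  intro p
  rw [iteratedFDeriv_sub_apply ((hu.1.of_le (by exact_mod_cast le_top)).contDiffAt)
    ((hv.1.of_le (by exact_mod_cast le_top)).contDiffAt)]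
  have h1 := nb_bd hu j p
  have h2 := nb_bd hv j p
  have h3 := norm_sub_le (iteratedFDeriv ℝ j u p) (iteratedFDeriv ℝ j v p)
  linarith

/-- uniform limits of elements of `KK` -/
theorem limit_mem {ε : ℕ → ℝ} (hε : ∀ r, 0 ≤ ε r) (un : ℕ → P2 → ℝ) (u : P2 → ℝ)
    (hun : ∀ n, un n ∈ KK ε)
    (hlim : ∀ e : ℝ, 0 < e → ∃ N : ℕ, ∀ n, N ≤ n → ∀ p, |un n p - u p| ≤ e) : u ∈ KK ε := by
  have hcau : ∀ (r : ℕ) (e : ℝ), 0 < e → ∃ N : ℕ, ∀ m, N ≤ m → ∀ n, N ≤ n → ∀ x,
      dist (iteratedFDeriv ℝ r (un m) x) (iteratedFDeriv ℝ r (un n) x) < e := by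
    intro r e he
    obtain ⟨δ, hδ, hd⟩ := small (fun j => 2 * bd ε j)
      (fun j => mul_nonneg zero_le_two (bd_nonneg hε j)) r (e / 2) (by positivity)
    obtain ⟨N, hN⟩ := hlim (δ / 2) (by positivity)
    refine ⟨N, fun m hm n hn x => ?_⟩
    have h1 := hd (un m - un n) ((hun m).1.sub (hun n).1) (fun j => diff_nb (hun m) (hun n) j)
      (fun p => by
        have h2 := hN m hm p
        have h3 := hN n hn p
        have h4 : (un m - un n) p = (un m p - u p) - (un n p - u p) := by
          simp [Pi.sub_apply]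
        rw [h4]
        have h5 := abs_sub (un m p - u p) (un n p - u p)
        linarith) x
    rw [iteratedFDeriv_sub_apply (((hun m).1.of_le (by exact_mod_cast le_top)).contDiffAt)
      (((hun n).1.of_le (by exact_mod_cast le_top)).contDiffAt)] at h1
    rw [dist_eq_norm]
    linarith
  have hex : ∀ (r : ℕ) (x : P2), ∃ g, Tendsto (fun n => iteratedFDeriv ℝ r (un n) x) atTop (𝓝 g) := by
    intro r x
    apply cauchySeq_tendsto_of_complete
    rw [Metric.cauchySeq_iff]
    intro e he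
    obtain ⟨N, hN⟩ := hcau r e he
    exact ⟨N, fun m hm n hn => hN m hm n hn x⟩
  choose G hG using hex
  have hunif : ∀ (r : ℕ) (e : ℝ), 0 < e → ∃ N : ℕ, ∀ n, N ≤ n → ∀ x,
      dist (G r x) (iteratedFDeriv ℝ r (un n) x) < e := by
    intro r e he
    obtain ⟨N, hN⟩ := hcau r (e / 2) (by positivity)
    refine ⟨N, fun n hn x => ?_⟩
    have h1 : Tendsto (fun m => dist (iteratedFDeriv ℝ r (un m) x) (iteratedFDeriv ℝ r (un n) x))
        atTop (𝓝 (dist (G r x) (iteratedFDeriv ℝ r (un n) x))) :=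
      (hG r x).dist tendsto_const_nhds
    have h2 : dist (G r x) (iteratedFDeriv ℝ r (un n) x) ≤ e / 2 := by
      refine le_of_tendsto h1 ?_
      filter_upwards [eventually_ge_atTop N] with m hm
      exact (hN m hm n hn x).le
    linarith
  have hser : HasFTaylorSeriesUpTo ∞ u (fun x m => G m x) := by
    rw [hasFTaylorSeriesUpTo_top_iff' le_rfl]
    constructor
    · intro x
      have h1 : Tendsto (fun n => (continuousMultilinearCurryFin0 ℝ P2 ℝ)
          (iteratedFDeriv ℝ 0 (un n) x)) atTop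
          (𝓝 ((continuousMultilinearCurryFin0 ℝ P2 ℝ) (G 0 x))) :=
        ((continuousMultilinearCurryFin0 ℝ P2 ℝ).continuous.tendsto _).comp (hG 0 x)
      have h2 : Tendsto (fun n => un n x) atTop (𝓝 (u x)) := by
        rw [Metric.tendsto_atTop]
        intro e he
        obtain ⟨N, hN⟩ := hlim (e / 2) (by positivity)
        refine ⟨N, fun n hn => ?_⟩
        rw [Real.dist_eq]
        have := hN n hn x
        linarith
      have h3 : ∀ n, (continuousMultilinearCurryFin0 ℝ P2 ℝ)
          (iteratedFDeriv ℝ 0 (un n) x) = un n x := by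
        intro n
        simp
      simp only [h3] at h1
      exact tendsto_nhds_unique h1 h2
    · intro m x
      refine hasFDerivAt_of_tendstoUniformly (l := atTop)
        (f := fun n y => iteratedFDeriv ℝ m (un n) y)
        (f' := fun n y => (iteratedFDeriv ℝ (m + 1) (un n) y).curryLeft)
        (g' := fun y => (G (m + 1) y).curryLeft) ?_ ?_ ?_ x
      · rw [Metric.tendstoUniformly_iff]
        intro e he
        obtain ⟨N, hN⟩ := hunif (m + 1) e he
        filter_upwards [eventually_ge_atTop N] with n hn y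
        have h1 := hN n hn y
        have h2 : dist (continuousMultilinearCurryLeftEquiv ℝ (fun _ : Fin (m + 1) => P2) ℝ
            (G (m + 1) y)) (continuousMultilinearCurryLeftEquiv ℝ (fun _ : Fin (m + 1) => P2) ℝ
            (iteratedFDeriv ℝ (m + 1) (un n) y)) < e := by
          rw [LinearIsometryEquiv.dist_map]
          exact h1
        exact h2
      · intro n y
        have h1 := ((hun n).1.ftaylorSeries).fderiv m (by exact_mod_cast ENat.natCast_lt_top m) y
        exact h1
      · intro y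
        exact hG m y
  have hcd : ContDiff ℝ ∞ u := hser.contDiff
  refine ⟨hcd, ?_, ?_⟩
  · intro p hp
    by_contra hne
    obtain ⟨N, hN⟩ := hlim (|u p| / 2) (by positivity)
    have h1 := hN N le_rfl p
    rw [(hun N).2.1 p hp, zero_sub, abs_neg] at h1
    have : 0 < |u p| := abs_pos.2 hne
    linarith
  · intro r hr p
    have h1 : G r p = iteratedFDeriv ℝ r u p :=
      hser.eq_iteratedFDeriv (by exact_mod_cast le_top) p
    rw [← h1]
    exact le_of_tendsto (hG r p).norm (Eventually.of_forall fun n => (hun n).2.2 r hr p)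

theorem convex_KK (ε : ℕ → ℝ) {u v : P2 → ℝ} (hu : u ∈ KK ε) (hv : v ∈ KK ε) {a b : ℝ}
    (ha : 0 ≤ a) (hb : 0 ≤ b) (hab : a + b = 1) : a • u + b • v ∈ KK ε := by
  refine ⟨(hu.1.const_smul a).add (hv.1.const_smul b), ?_, ?_⟩
  · intro p hp
    simp [hu.2.1 p hp, hv.2.1 p hp]
  · intro r hr p
    have h1 : ContDiffAt ℝ r u p := (hu.1.of_le (by exact_mod_cast le_top)).contDiffAt
    have h2 : ContDiffAt ℝ r v p := (hv.1.of_le (by exact_mod_cast le_top)).contDiffAt
    have e0 : iteratedFDeriv ℝ r (a • u + b • v) p =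
        a • iteratedFDeriv ℝ r u p + b • iteratedFDeriv ℝ r v p := by
      rw [← iteratedFDeriv_const_smul_apply h1, ← iteratedFDeriv_const_smul_apply h2]
      exact iteratedFDeriv_add_apply (h1.const_smul a) (h2.const_smul b)
    rw [e0]
    have h3 := hu.2.2 r hr p
    have h4 := hv.2.2 r hr p
    have h5 := norm_add_le (a • iteratedFDeriv ℝ r u p) (b • iteratedFDeriv ℝ r v p)
    rw [norm_smul, norm_smul, Real.norm_eq_abs, Real.norm_eq_abs, abs_of_nonneg ha,
      abs_of_nonneg hb] at h5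
    have h6 := mul_le_mul_of_nonneg_left h3 ha
    have h7 := mul_le_mul_of_nonneg_left h4 hb
    have h8 : a * ε r + b * ε r = ε r := by rw [← add_mul, hab, one_mul]
    linarith

/-- the closed box -/
abbrev BB : Type := Metric.closedBall (0 : P2) 1

noncomputable instance : CompactSpace BB := isCompact_iff_compactSpace.1 (isCompact_closedBall _ _)

open BoundedContinuousFunction

/-- restriction to the box -/
noncomputable def res (u : P2 → ℝ) (hu : Continuous u) : BB →ᵇ ℝ :=
  BoundedContinuousFunction.mkOfCompact ⟨fun x => u x.1, hu.comp continuous_subtype_val⟩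

theorem res_apply (u : P2 → ℝ) (hu : Continuous u) (x : BB) : res u hu x = u x.1 := rfl

/-- the compact convex set in the space of bounded continuous functions -/
def KC (ε : ℕ → ℝ) : Set (BB →ᵇ ℝ) := {g | ∃ u ∈ KK ε, ∀ x : BB, g x = u x.1}

theorem out_zero {ε : ℕ → ℝ} {u : P2 → ℝ} (hu : u ∈ KK ε) {p : P2}
    (hp : p ∉ Metric.closedBall (0 : P2) 1) : u p = 0 := by
  apply hu.2.1
  rw [mem_closedBall_zero_iff, not_le, Prod.norm_def, lt_max_iff] at hp
  rcases hp with h | h
  · exact Or.inl h.le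
  · exact Or.inr h.le

theorem isClosed_KC {ε : ℕ → ℝ} (hε : ∀ r, 0 ≤ ε r) : IsClosed (KC ε) := by
  apply IsSeqClosed.isClosed
  classical
  intro gn g hgn hlim
  choose un hun hgu using hgn
  let u : P2 → ℝ := fun p => if h : p ∈ Metric.closedBall (0 : P2) 1 then g ⟨p, h⟩ else 0
  refine ⟨u, limit_mem hε un u hun ?_, ?_⟩
  · intro e he
    rw [Metric.tendsto_atTop] at hlim
    obtain ⟨N, hN⟩ := hlim e he
    refine ⟨N, fun n hn p => ?_⟩
    by_cases hp : p ∈ Metric.closedBall (0 : P2) 1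
    · simp only [u, hp, dif_pos]
      have h1 := BoundedContinuousFunction.dist_coe_le_dist (f := gn n) (g := g) ⟨p, hp⟩
      rw [hgu n ⟨p, hp⟩, Real.dist_eq] at h1
      exact h1.trans (hN n hn).le
    · simp only [u, hp, dif_neg, not_false_iff]
      rw [out_zero (hun n) hp]
      simpa using he.le
  · intro x
    simp only [u, x.2, dif_pos]

theorem isCompact_KC {ε : ℕ → ℝ} (hε : ∀ r, 0 ≤ ε r) : IsCompact (KC ε) := by
  refine arzela_ascoli₂ (Icc (-(bd ε 0)) (bd ε 0)) isCompact_Icc (KC ε) (isClosed_KC hε) ?_ ?_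
  · rintro g x ⟨u, hu, hg⟩
    rw [hg x]
    have h1 := nb_bd hu 0 x.1
    rw [norm_iteratedFDeriv_zero, Real.norm_eq_abs] at h1
    exact abs_le.1 h1
  · refine UniformEquicontinuous.equicontinuous ?_
    refine LipschitzWith.uniformEquicontinuous _ (Real.toNNReal (bd ε 1)) ?_
    rintro ⟨g, u, hu, hg⟩
    refine LipschitzWith.of_dist_le_mul fun x y => ?_
    show dist (g x) (g y) ≤ _
    rw [hg x, hg y, Real.coe_toNNReal _ (bd_nonneg hε 1), dist_eq_norm]
    have hmv := Convex.norm_image_sub_le_of_norm_fderiv_le (𝕜 := ℝ) (f := u)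
      (s := univ) (C := bd ε 1) (fun x _ => (hu.1.differentiable (by simp)) x)
      (fun x _ => by
        have := nb_bd hu 1 x
        rwa [norm_iteratedFDeriv_one] at this) convex_univ
      (mem_univ y.1) (mem_univ x.1)
    exact hmv

theorem convex_KC (ε : ℕ → ℝ) : Convex ℝ (KC ε) := by
  rintro g ⟨u, hu, hg⟩ h ⟨v, hv, hh⟩ a b ha hb hab
  refine ⟨a • u + b • v, convex_KK ε hu hv ha hb hab, fun x => ?_⟩
  simp [hg x, hh x]

theorem schau : S_SCHAU := by
  intro ε hε T hT ⟨C, hC⟩
  classical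
  have hdist : ∀ (g h : BB →ᵇ ℝ) (u v : P2 → ℝ), u ∈ KK ε → v ∈ KK ε → (∀ x : BB, g x = u x.1) →
      (∀ x : BB, h x = v x.1) → ∀ p, |u p - v p| ≤ dist g h := by
    intro g h u v hu hv hgu hhv p
    by_cases hp : p ∈ Metric.closedBall (0 : P2) 1
    · have h1 := BoundedContinuousFunction.dist_coe_le_dist (f := g) (g := h) ⟨p, hp⟩
      rwa [hgu, hhv, Real.dist_eq] at h1
    · rw [out_zero hu hp, out_zero hv hp]
      simp
  let c : (BB →ᵇ ℝ) → P2 → ℝ := fun g =>
    if h : g ∈ KC ε then h.choose else 0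
  have hc : ∀ g ∈ KC ε, c g ∈ KK ε ∧ ∀ x : BB, g x = c g x.1 := by
    intro g hg
    simp only [c, hg, dif_pos]
    exact hg.choose_spec
  let T' : (BB →ᵇ ℝ) → (BB →ᵇ ℝ) := fun g =>
    if h : g ∈ KC ε then res (T (c g)) (hT _ (hc g h).1).1.continuous else 0
  have hT' : ∀ g ∈ KC ε, ∀ x : BB, T' g x = T (c g) x.1 := by
    intro g hg x
    simp only [T', hg, dif_pos]
    rfl
  have hmaps : ∀ g ∈ KC ε, T' g ∈ KC ε := fun g hg =>
    ⟨T (c g), hT _ (hc g hg).1, hT' g hg⟩
  have hcont : ContinuousOn T' (KC ε) := by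
    have : LipschitzOnWith (Real.toNNReal C) T' (KC ε) := by
      refine LipschitzOnWith.of_dist_le_mul fun g hg h hh => ?_
      rw [BoundedContinuousFunction.dist_le (by positivity)]
      intro x
      rw [hT' g hg, hT' h hh, Real.dist_eq]
      have h1 := hC (c g) (hc g hg).1 (c h) (hc h hh).1 (dist g h)
        (hdist g h _ _ (hc g hg).1 (hc h hh).1 (hc g hg).2 (hc h hh).2) x.1
      refine h1.trans ?_
      rw [Real.coe_toNNReal']
      exact mul_le_mul_of_nonneg_right (le_max_left _ _) dist_nonneg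
    exact this.continuousOn
  have hne : (KC ε).Nonempty := by
    refine ⟨0, 0, ⟨contDiff_const, fun p _ => rfl, fun r _ p => ?_⟩, fun x => rfl⟩
    have : iteratedFDeriv ℝ r (0 : P2 → ℝ) p = 0 := by
      simp
    rw [this, norm_zero]
    exact hε r
  obtain ⟨g, hg, hfix⟩ := schauder (isCompact_KC hε) (convex_KC ε) hne T' hcont hmaps
  refine ⟨c g, (hc g hg).1, ?_⟩
  funext p
  by_cases hp : p ∈ Metric.closedBall (0 : P2) 1
  · have h1 := hT' g hg ⟨p, hp⟩
    rw [hfix, (hc g hg).2 ⟨p, hp⟩] at h1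
    exact h1.symm
  · rw [out_zero (hc g hg).1 hp, out_zero (hT _ (hc g hg).1) hp]

end Pool.Agent.W143.DQ
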